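import Mathlib

/-!
# Theorem A, module M4: the mean value of a function with steps 0 and 2 under a complex product measure

`X : Finset ι → ℤ` with `X (insert c F) - X F ∈ {0, 2}` and `-t ≤ X ∅ ≤ 0`, `t = |ι|`; the weight of `F` is
`∏_{c ∈ F} w c * ∏_{c ∉ F} (1 - w c)` with `|w c| = 1`.  Then the mean value of `X` is at most
`2 t + (3 ^ t - 1) / 2 ≤ 3 ^ t`.
-/

set_option autoImplicit false

namespace Pool.Agent.ThmA

open Finset

variable {ι : Type*} [DecidableEq ι]

/-- the mean value of `X` over the subsets of `S` -/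
noncomputable def mean (w : ι → ℂ) (S : Finset ι) (X : Finset ι → ℂ) : ℂ :=
  ∑ F ∈ S.powerset, (∏ c ∈ F, w c) * (∏ c ∈ S \ F, (1 - w c)) * X F

theorem mean_insert (w : ι → ℂ) (S : Finset ι) (X : Finset ι → ℂ) {a : ι} (ha : a ∉ S) :
    mean w (insert a S) X = mean w S X + w a * mean w S (fun F => X (insert a F) - X F) := by
  unfold mean
  rw [Finset.sum_powerset_insert ha, Finset.mul_sum, ← Finset.sum_add_distrib,
    ← Finset.sum_add_distrib]
  refine Finset.sum_congr rfl fun F hF => ?_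
  have hF' : F ⊆ S := Finset.mem_powerset.1 hF
  have haF : a ∉ F := fun h => ha (hF' h)
  have h1 : insert a S \ F = insert a (S \ F) := Finset.insert_sdiff_of_notMem _ haF
  have h2 : insert a S \ insert a F = S \ F := by
    ext x
    simp only [Finset.mem_sdiff, Finset.mem_insert, not_or]
    constructor
    · rintro ⟨h | h, h', h''⟩
      · exact absurd h h'
      · exact ⟨h, h''⟩
    · rintro ⟨h, h'⟩
      exact ⟨Or.inr h, fun h'' => ha (h'' ▸ h), h'⟩
  have h3 : a ∉ S \ F := fun h => ha (Finset.mem_sdiff.1 h).1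
  rw [h1, h2, Finset.prod_insert h3, Finset.prod_insert haF]
  ring

theorem mean_one (w : ι → ℂ) (S : Finset ι) : mean w S (fun _ => 1) = 1 := by
  induction S using Finset.induction_on with
  | empty => simp [mean]
  | insert a S ha ih =>
    rw [mean_insert w S _ ha, ih]
    simp [mean]

theorem norm_mean_le (w : ι → ℂ) (hw : ∀ c, ‖w c‖ = 1) (S : Finset ι) (X : Finset ι → ℂ)
    (hX : ∀ F, ‖X F‖ ≤ 1) : ‖mean w S X‖ ≤ 3 ^ S.card := by
  have h1 : ∀ c, ‖1 - w c‖ ≤ 2 := fun c => by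
    refine (norm_sub_le _ _).trans ?_
    rw [norm_one, hw c]
    norm_num
  calc ‖mean w S X‖ ≤ ∑ F ∈ S.powerset, ‖(∏ c ∈ F, w c) * (∏ c ∈ S \ F, (1 - w c)) * X F‖ :=
        norm_sum_le _ _
    _ ≤ ∑ F ∈ S.powerset, ((1 : ℝ) ^ F.card * 2 ^ (S.card - F.card)) := by
        refine Finset.sum_le_sum fun F hF => ?_
        have hF' : F ⊆ S := Finset.mem_powerset.1 hF
        rw [norm_mul, norm_mul, norm_prod, norm_prod, Finset.prod_congr rfl fun c _ => hw c,
          Finset.prod_const_one, one_mul, one_pow, one_mul, ← Finset.card_sdiff_of_subset hF']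
        calc (∏ c ∈ S \ F, ‖1 - w c‖) * ‖X F‖ ≤ 2 ^ (S \ F).card * 1 := by
              refine mul_le_mul ?_ (hX F) (norm_nonneg _) (by positivity)
              refine (Finset.prod_le_prod (fun c _ => norm_nonneg _) fun c _ => h1 c).trans ?_
              rw [Finset.prod_const]
          _ = 2 ^ (S \ F).card := mul_one _
    _ = (1 + 2) ^ S.card := (Finset.sum_pow_mul_eq_add_pow (1 : ℝ) 2 S)
    _ = 3 ^ S.card := by norm_num

/-- the mean value of a function with steps `0`, `2` -/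
theorem norm_mean_sub_le (w : ι → ℂ) (hw : ∀ c, ‖w c‖ = 1) (X : Finset ι → ℤ)
    (hX : ∀ F, ∀ c, c ∉ F → X (insert c F) = X F ∨ X (insert c F) = X F + 2) (S : Finset ι) :
    ‖mean w S (fun F => (X F : ℂ)) - (X ∅ : ℂ)‖ ≤ S.card + (3 ^ S.card - 1) / 2 := by
  induction S using Finset.induction_on with
  | empty => simp [mean]
  | insert a S ha ih =>
    rw [mean_insert w S _ ha]
    have hd : mean w S (fun F => ((X (insert a F) : ℤ) : ℂ) - (X F : ℂ)) =
        1 + mean w S (fun F => ((if a ∈ F then 0 else X (insert a F) - X F - 1 : ℤ) : ℂ)) := by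
      rw [← mean_one w S]
      unfold mean
      rw [← Finset.sum_add_distrib]
      refine Finset.sum_congr rfl fun F hF => ?_
      have haF : a ∉ F := fun h => ha (Finset.mem_powerset.1 hF h)
      beta_reduce
      rw [if_neg haF]
      push_cast
      ring
    have hb : ‖mean w S (fun F => ((if a ∈ F then 0 else X (insert a F) - X F - 1 : ℤ) : ℂ))‖ ≤
        3 ^ S.card := by
      refine norm_mean_le w hw S _ fun F => ?_
      by_cases haF : a ∈ F
      · simp [haF]
      · rw [if_neg haF]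
        rcases hX F a haF with h | h <;> rw [h]
        · have : (X F - X F - 1 : ℤ) = -1 := by ring
          rw [this]
          simp
        · have : (X F + 2 - X F - 1 : ℤ) = 1 := by ring
          rw [this]
          simp
    have h3 : ‖w a * mean w S (fun F => ((X (insert a F) : ℤ) : ℂ) - (X F : ℂ))‖ ≤
        1 + 3 ^ S.card := by
      rw [norm_mul, hw a, one_mul, hd]
      refine (norm_add_le _ _).trans ?_
      rw [norm_one]
      exact add_le_add le_rfl hb
    rw [Finset.card_insert_of_notMem ha, pow_succ]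
    push_cast
    calc ‖mean w S (fun F => (X F : ℂ)) +
          w a * mean w S (fun F => ((X (insert a F) : ℤ) : ℂ) - (X F : ℂ)) - (X ∅ : ℂ)‖
        = ‖(mean w S (fun F => (X F : ℂ)) - (X ∅ : ℂ)) +
          w a * mean w S (fun F => ((X (insert a F) : ℤ) : ℂ) - (X F : ℂ))‖ := by
          congr 1
          ring
      _ ≤ (S.card + (3 ^ S.card - 1) / 2) + (1 + 3 ^ S.card) :=
          (norm_add_le _ _).trans (add_le_add ih h3)
      _ = (S.card : ℝ) + 1 + (3 ^ S.card * 3 - 1) / 2 := by ring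

theorem arith (t : ℕ) : 2 * (t : ℝ) + (3 ^ t - 1) / 2 ≤ 3 ^ t := by
  have h : ∀ t : ℕ, 4 * t ≤ 3 ^ t + 1 := by
    intro t
    induction t with
    | zero => simp
    | succ t ih =>
      rw [pow_succ]
      rcases Nat.eq_zero_or_pos t with rfl | ht
      · norm_num
      · have : 3 ^ 1 ≤ 3 ^ t := Nat.pow_le_pow_right (by norm_num) ht
        omega
  have h' : (4 * (t : ℝ)) ≤ 3 ^ t + 1 := by exact_mod_cast h t
  linarith

/-- **M4.** `|E[X]| ≤ 3 ^ t`. -/
theorem norm_mean_le_pow (w : ι → ℂ) (hw : ∀ c, ‖w c‖ = 1) (S : Finset ι) (X : Finset ι → ℤ)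
    (hX : ∀ F, ∀ c, c ∉ F → X (insert c F) = X F ∨ X (insert c F) = X F + 2)
    (h0 : |X ∅| ≤ S.card) : ‖mean w S (fun F => (X F : ℂ))‖ ≤ 3 ^ S.card := by
  have h1 := norm_mean_sub_le w hw X hX S
  have h2 : ‖((X ∅ : ℤ) : ℂ)‖ ≤ S.card := by
    rw [Complex.norm_intCast]
    exact_mod_cast h0
  calc ‖mean w S (fun F => (X F : ℂ))‖
      = ‖(mean w S (fun F => (X F : ℂ)) - (X ∅ : ℂ)) + (X ∅ : ℂ)‖ := by rw [sub_add_cancel]
    _ ≤ (S.card + (3 ^ S.card - 1) / 2) + S.card := (norm_add_le _ _).trans (add_le_add h1 h2)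
    _ = 2 * (S.card : ℝ) + (3 ^ S.card - 1) / 2 := by ring
    _ ≤ 3 ^ S.card := arith _

/-- **M4**, for a finite type of classes: the classes in `F` have the unimodular weight. -/
theorem bound [Fintype ι] (w : ι → ℂ) (hw : ∀ c, ‖w c‖ = 1) (X : Finset ι → ℤ)
    (hX : ∀ F, ∀ c, c ∉ F → X (insert c F) = X F ∨ X (insert c F) = X F + 2)
    (h0 : |X ∅| ≤ Fintype.card ι) :
    ‖∑ F : Finset ι, (∏ c ∈ F, w c) * (∏ c ∈ Fᶜ, (1 - w c)) * (X F : ℂ)‖ ≤
      3 ^ Fintype.card ι := by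
  have h := norm_mean_le_pow w hw Finset.univ X hX (by simpa using h0)
  unfold mean at h
  rw [Finset.powerset_univ, Finset.card_univ] at h
  simpa only [Finset.compl_eq_univ_sdiff] using h

/-- **M4**, dual form: the classes not in `F` have the unimodular weight. -/
theorem bound' [Fintype ι] (w : ι → ℂ) (hw : ∀ c, ‖w c‖ = 1) (X : Finset ι → ℤ)
    (hX : ∀ F, ∀ c, c ∉ F → X (insert c F) = X F ∨ X (insert c F) = X F - 2)
    (h0 : |X Finset.univ| ≤ Fintype.card ι) :
    ‖∑ F : Finset ι, (∏ c ∈ Fᶜ, w c) * (∏ c ∈ F, (1 - w c)) * (X F : ℂ)‖ ≤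
      3 ^ Fintype.card ι := by
  have h := bound w hw (fun F => X Fᶜ) (fun F c hc => by
    have h1 : c ∉ (insert c F)ᶜ := by simp
    have h2 : insert c (insert c F)ᶜ = Fᶜ := by
      ext x
      simp only [Finset.mem_insert, Finset.mem_compl, not_or]
      constructor
      · rintro (rfl | ⟨_, h⟩)
        · exact hc
        · exact h
      · intro h
        by_cases hx : x = c
        · exact Or.inl hx
        · exact Or.inr ⟨hx, h⟩
    have h3 := hX (insert c F)ᶜ c h1
    rw [h2] at h3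
    show X (insert c F)ᶜ = X Fᶜ ∨ X (insert c F)ᶜ = X Fᶜ + 2
    omega) (by simpa using h0)
  refine le_of_eq_of_le (congrArg _ ?_) h
  refine Finset.sum_bij (fun F _ => Fᶜ) (fun _ _ => Finset.mem_univ _)
    (fun _ _ _ _ h => compl_injective h) (fun F _ => ⟨Fᶜ, Finset.mem_univ _, compl_compl F⟩)
    fun F _ => ?_
  rw [compl_compl]

/-- The final comparison: `6 (P - P') = 2 √3 i (E - E')` and `|E| ≤ 3 ^ t`, `|E'| ≤ 3 ^ t'`. -/
theorem compare {P P' : ℤ} {E E' : ℂ} {t t' : ℕ}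
    (h : (6 : ℂ) * ((P : ℂ) - P') = 2 * (Real.sqrt 3 : ℂ) * Complex.I * (E - E'))
    (hE : ‖E‖ ≤ 3 ^ t) (hE' : ‖E'‖ ≤ 3 ^ t') :
    Real.sqrt 3 * |(P : ℝ) - P'| ≤ 3 ^ t + 3 ^ t' := by
  have h1 := congrArg norm h
  rw [norm_mul, norm_mul, norm_mul, norm_mul, Complex.norm_I, mul_one] at h1
  have h2 : ‖(P : ℂ) - P'‖ = |(P : ℝ) - P'| := by
    rw [← Complex.ofReal_intCast, ← Complex.ofReal_intCast, ← Complex.ofReal_sub,
      Complex.norm_real, Real.norm_eq_abs]
  have h3 : ‖(Real.sqrt 3 : ℂ)‖ = Real.sqrt 3 := by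
    rw [Complex.norm_real, Real.norm_eq_abs, abs_of_nonneg (Real.sqrt_nonneg _)]
  have h4 : ‖E - E'‖ ≤ 3 ^ t + 3 ^ t' := (norm_sub_le _ _).trans (add_le_add hE hE')
  rw [h2, h3] at h1
  have h5 : ‖(6 : ℂ)‖ = 6 := by norm_num
  have h6 : ‖(2 : ℂ)‖ = 2 := by norm_num
  rw [h5, h6] at h1
  have h7 : Real.sqrt 3 * Real.sqrt 3 = 3 := Real.mul_self_sqrt (by norm_num)
  have h8 : 0 < Real.sqrt 3 := Real.sqrt_pos.2 (by norm_num)
  have h9 : Real.sqrt 3 * |(P : ℝ) - P'| = ‖E - E'‖ := by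
    have : Real.sqrt 3 * (Real.sqrt 3 * |(P : ℝ) - P'|) = Real.sqrt 3 * ‖E - E'‖ := by
      rw [← mul_assoc, h7]
      linarith
    exact mul_left_cancel₀ h8.ne' this
  rw [h9]
  exact h4

end Pool.Agent.ThmA
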